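import Pool.Agent.QDA.StmtsZ
import Pool.Agent.Helper68_LQF.MBR
import Pool.Agent.Helper72_ANE.Ctz
import Pool.Agent.Helper76_LQD.RAL
import Pool.Agent.Helper54_LIR.FTB
import Pool.Agent.Helper8_LQF.KHB
import Pool.Agent.Helper32_LQF.JCB

/-!
# QDA, row STM: the self energy does not depend on the torus nor on the tiny absorption
-/

set_option autoImplicit false

open MeasureTheory ProbabilityTheory Function Filter

open scoped BigOperators NNReal ENNReal Matrix InnerProductSpace Topology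

noncomputable section

namespace Pool.Agent.QDA.H89

open Pool.Agent.Anderson hiding box mem_box card_box
open Pool.Agent.Loc Pool.Agent.Mob Pool.Agent.Helper54.Bal
  Pool.Agent.Helper96.EXP Pool.Agent.BED
open Pool.Agent.LE.MN Pool.Agent.LE.CL Pool.Agent.LE.IR Pool.Agent.LE.QD
open Pool.Agent.LE.QF Pool.Agent.LE.QF.H68

/-- the strip -/
def Kst (q : ℝ) : Set ℂ := {z | q ≤ z.im ∧ z.im ≤ 1 / 2}

theorem Kst_convex (q : ℝ) : Convex ℝ (Kst q) := by
  have h1 : Convex ℝ {m : ℂ | q ≤ m.im} := convex_halfSpace_im_ge q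
  have h2 : Convex ℝ {m : ℂ | m.im ≤ 1 / 2} := convex_halfSpace_im_le (1 / 2)
  exact h1.inter h2

theorem exp_neg_le {x : ℝ} (hx : 0 < x) : Real.exp (-x) ≤ 1 / x := by
  rw [Real.exp_neg, ← one_div]
  have h := Real.add_one_le_exp x
  exact one_div_le_one_div_of_le hx (by linarith)

/-- the lattice and the torus, in the strip -/
theorem ctz_small {d : ℕ} {C : ℝ} (hC : 1 ≤ C)
    (h : ∀ (M : ℕ) [NeZero M] (V : Site d → ℝ) (E η : ℝ), 0 < η → η ≤ 1 →
      ‖G V (zz η E) (del 0) 0 - rs (fun x : Tor d M => V (rep x)) ⟨E, η⟩ 0 0‖ ≤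
        C / η ^ 2 * Real.exp (-(η * M / C)))
    (ral : RalStmt) {q δ : ℝ} (hq : 0 < q) (hδ : 0 < δ) {M : ℕ} [NeZero M]
    (hM : 8 * C ^ 2 / (q ^ 3 * δ) ≤ M) {ζ : ℂ} (h1 : q ≤ ζ.im) (h2 : ζ.im ≤ 1 / 2) :
    ‖G (0 : Site d → ℝ) (zz ζ.im ζ.re) (del 0) 0 - Fz d M ζ‖ ≤ δ / 8 := by
  have hw : 0 < ζ.im := hq.trans_le h1
  have h3 := h M 0 ζ.re ζ.im hw (by linarith)
  have h4 : rs (fun x : Tor d M => (0 : Site d → ℝ) (rep x)) ⟨ζ.re, ζ.im⟩ 0 0 = Fz d M ζ := by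
    have h5 := rs_diag ral ζ hw (0 : Tor d M)
    exact h5
  rw [h4] at h3
  refine h3.trans ?_
  have hM0 : (0 : ℝ) < M := by
    have : 0 < M := Nat.pos_of_ne_zero (NeZero.ne M)
    exact_mod_cast this
  have h6 : Real.exp (-(ζ.im * M / C)) ≤ 1 / (q * M / C) := by
    refine (exp_neg_le (by positivity)).trans ?_
    apply one_div_le_one_div_of_le (by positivity)
    gcongr
  calc C / ζ.im ^ 2 * Real.exp (-(ζ.im * M / C)) ≤ C / q ^ 2 * (1 / (q * M / C)) := by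
        gcongr
    _ = C ^ 2 / (q ^ 3 * M) := by
        field_simp
    _ ≤ δ / 8 := by
        rw [div_le_div_iff₀ (by positivity) (by norm_num)]
        rw [div_le_iff₀ (by positivity)] at hM
        nlinarith

theorem stm' (khb : KhbStmt) (ral : RalStmt) (ctz : ANE.CtzStmt) : StmStmt := by
  intro d a b δ hd _ hb hδ
  obtain ⟨CK, hCK, h3⟩ := khb d hd
  obtain ⟨CZ, hCZ, h4⟩ := ctz d
  have hCK0 : 0 < CK := by linarith
  have hCZ0 : 0 < CZ := by linarith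
  set U : ℝ := min 1 (b / (8 * CK)) with hU
  have hU0 : 0 < U := lt_min one_pos (by positivity)
  refine ⟨min (b / 4) (U ^ 4 / b), lt_min (by positivity) (by positivity), ?_⟩
  intro T hT hTT
  have hT1 : T ≤ b / 4 := hTT.trans (min_le_left _ _)
  have hT2 : T ≤ U ^ 4 / b := hTT.trans (min_le_right _ _)
  set q : ℝ := b * T with hq
  have hq0 : 0 < q := by positivity
  obtain ⟨M₁, hM₁⟩ := exists_nat_ge (max (CK / q ^ 2) (8 * CZ ^ 2 / (q ^ 3 * δ)))
  refine ⟨min (1 / 4) (δ * T / 8), M₁, lt_min (by norm_num) (by positivity), ?_⟩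
  intro M M' _ _ E E' η η' m m' hM hM' _ _ hEE hη hη1 hη' hη1' hm1 hm2 hm1' hm2' hm hm'
  have hMr : (M₁ : ℝ) ≤ M := by exact_mod_cast hM
  have hMr' : (M₁ : ℝ) ≤ M' := by exact_mod_cast hM'
  -- the points
  have pt : ∀ (E η : ℝ) (m : ℂ), 0 < η → η ≤ min (1 / 4) (δ * T / 8) → b ≤ m.im → ‖m‖ ≤ 1 / b →
      (⟨E, η⟩ + (T : ℂ) * m : ℂ) ∈ Kst q := by
    intro E η m h1 h2 h5 h6
    have him : (⟨E, η⟩ + (T : ℂ) * m : ℂ).im = η + T * m.im := by simp
    have h7 : m.im ≤ 1 / b := (le_abs_self _).trans ((Complex.abs_im_le_norm m).trans h6)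
    have h0 : 0 ≤ m.im := hb.le.trans h5
    have h8 : T * m.im ≤ b / 4 * (1 / b) := by gcongr
    have h9 : b / 4 * (1 / b) = 1 / 4 := by field_simp
    have h10 : η ≤ 1 / 4 := h2.trans (min_le_left _ _)
    have h11 : b * T ≤ T * m.im := by
      rw [mul_comm]
      gcongr
    constructor
    · rw [him, hq]
      linarith
    · rw [him]
      linarith
  have hz := pt E η m hη hη1 hm1 hm2
  have hz' := pt E' η' m' hη' hη1' hm1' hm2'
  set ζ : ℂ := ⟨E, η⟩ + (T : ℂ) * m with hζ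
  set ζ' : ℂ := ⟨E', η'⟩ + (T : ℂ) * m' with hζ'
  have hw : 0 < ζ.im := hq0.trans_le hz.1
  have hw' : 0 < ζ'.im := hq0.trans_le hz'.1
  rw [rs_diag ral ζ hw] at hm
  rw [rs_diag ral ζ' hw'] at hm'
  -- the derivative
  have hder : ∀ z ∈ Kst q, ‖bh z (0 : Tor d M)‖ ≤ 1 / (2 * T) := by
    intro z hz
    have hz0 : 0 < z.im := hq0.trans_le hz.1
    have h5 : CK / z.im ^ 2 ≤ M := by
      refine le_trans ?_ (((le_max_left _ _).trans hM₁).trans hMr)
      have := hz.1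
      gcongr
    have h6 := (h3 M z 0 ⟨0, by omega⟩ hz0 hz.2 h5).2
    have h7 : |Real.cos (Real.pi * ((((0 : Tor d M) ⟨0, by omega⟩).valMinAbs : ℤ) : ℝ) / M)| = 1 := by
      simp
    rw [h7] at h6
    set u : ℝ := Real.sqrt (Real.sqrt q) with hu
    have hu0 : 0 < u := Real.sqrt_pos.2 (Real.sqrt_pos.2 hq0)
    have hu4 : u ^ 4 = b * T := by
      have h8 : u ^ 2 = Real.sqrt q := Real.sq_sqrt (Real.sqrt_nonneg _)
      have h9 : Real.sqrt q ^ 2 = q := Real.sq_sqrt hq0.le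
      calc u ^ 4 = (u ^ 2) ^ 2 := by ring
        _ = b * T := by rw [h8, h9]
    have huU : u ≤ U := by
      have h8 : u ^ 4 ≤ U ^ 4 := by
        rw [hu4]
        rw [le_div_iff₀ hb] at hT2
        linarith
      exact (pow_le_pow_iff_left₀ hu0.le hU0.le (by norm_num)).1 h8
    have hlog : 0 ≤ Real.log (1 / z.im) := by
      apply Real.log_nonneg
      rw [le_div_iff₀ hz0]
      linarith [hz.2]
    have h9 : 1 + Real.log (1 / z.im) ≤ 4 / u := by
      refine le_trans ?_ (log_le_u hu0)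
      have h10 : Real.log (1 / z.im) ≤ Real.log (1 / u ^ 4) := by
        apply Real.log_le_log (by positivity)
        rw [hu4]
        exact one_div_le_one_div_of_le hq0 hz.1
      linarith
    have h10 := bd_le hb hCK0 hT.le hz0 (by linarith : 0 ≤ 1 + Real.log (1 / z.im)) hu0 hu4 h9
      (huU.trans (min_le_right _ _)) hz.1 h6
    rw [le_div_iff₀ (by positivity)]
    linarith
  have hlip := (Kst_convex q).norm_image_sub_le_of_norm_hasDerivWithin_le
    (f := Fz d M) (f' := fun z => bh z (0 : Tor d M)) (C := 1 / (2 * T))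
    (fun z hz => (Fz_deriv (hq0.trans_le hz.1)).hasDerivWithinAt) hder hz' hz
  -- the two tori
  have hMa : 8 * CZ ^ 2 / (q ^ 3 * δ) ≤ M := ((le_max_right _ _).trans hM₁).trans hMr
  have hMb : 8 * CZ ^ 2 / (q ^ 3 * δ) ≤ M' := ((le_max_right _ _).trans hM₁).trans hMr'
  have h5 := ctz_small hCZ h4 ral hq0 hδ hMa hz'.1 hz'.2
  have h6 := ctz_small hCZ h4 ral hq0 hδ hMb hz'.1 hz'.2
  have h7 : ‖Fz d M ζ' - Fz d M' ζ'‖ ≤ δ / 4 := by
    have h8 : Fz d M ζ' - Fz d M' ζ' =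
        (G (0 : Site d → ℝ) (zz ζ'.im ζ'.re) (del 0) 0 - Fz d M' ζ') -
          (G (0 : Site d → ℝ) (zz ζ'.im ζ'.re) (del 0) 0 - Fz d M ζ') := by ring
    rw [h8]
    refine (norm_sub_le _ _).trans ?_
    linarith
  have h8 : ‖ζ - ζ'‖ ≤ 2 * (δ * T / 8) + T * ‖m - m'‖ := by
    have h9 : ζ - ζ' = (((E - E' : ℝ) : ℂ) + ((η - η' : ℝ) : ℂ) * Complex.I) +
        (T : ℂ) * (m - m') := by
      rw [hζ, hζ']
      apply Complex.ext <;> simp <;> ring
    rw [h9]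
    refine (norm_add_le _ _).trans (add_le_add ((norm_add_le _ _).trans ?_) ?_)
    · rw [norm_mul, Complex.norm_I, mul_one, Complex.norm_real, Complex.norm_real,
        Real.norm_eq_abs, Real.norm_eq_abs]
      have h10 : |η - η'| ≤ min (1 / 4) (δ * T / 8) := by
        rw [abs_le]
        constructor <;> linarith
      have h11 : min (1 / 4) (δ * T / 8) ≤ δ * T / 8 := min_le_right _ _
      linarith
    · rw [norm_mul, Complex.norm_real, Real.norm_of_nonneg hT.le]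
  have h9 : ‖m - m'‖ ≤ 1 / (2 * T) * (2 * (δ * T / 8) + T * ‖m - m'‖) + δ / 4 := by
    have h10 : m - m' = (Fz d M ζ - Fz d M ζ') + (Fz d M ζ' - Fz d M' ζ') := by
      rw [hm, hm']
      ring
    calc ‖m - m'‖ = ‖(Fz d M ζ - Fz d M ζ') + (Fz d M ζ' - Fz d M' ζ')‖ := by rw [← h10]
      _ ≤ ‖Fz d M ζ - Fz d M ζ'‖ + ‖Fz d M ζ' - Fz d M' ζ'‖ := norm_add_le _ _
      _ ≤ 1 / (2 * T) * ‖ζ - ζ'‖ + δ / 4 := add_le_add hlip h7
      _ ≤ _ := by gcongr
  have h10 : 1 / (2 * T) * (2 * (δ * T / 8) + T * ‖m - m'‖) = δ / 8 + ‖m - m'‖ / 2 := by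
    field_simp
  rw [h10] at h9
  linarith

theorem stm : StmStmt :=
  stm' (Pool.Agent.LE.QF.H8.khb Pool.Agent.LE.QF.H32.jcb)
    (Pool.Agent.LE.QD.H76.ral Pool.Agent.LE.IR.H54.ftb) Pool.Agent.ANE.H72.ctz

end Pool.Agent.QDA.H89
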